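import Pool.Agent.helper1.EscN.Mid

/-!
Near-minimality of the slow sequence of an optimal path, abstract form; transitions stay in the room.
-/

noncomputable section

namespace EscN

open Set Filter Topology
open Esc

variable {Y : Type*} [PseudoMetricSpace Y] {S C : Set Y} {y : Y → ℝ} {p : ℝ}

/-- `setY` changes the slow coordinate only -/
structure SetY {Y : Type*} (S : Set Y) (y : Y → ℝ) (setY : Y → ℝ → Y) : Prop where
  mem : ∀ z ∈ S, ∀ η, setY z η ∈ S
  eq : ∀ z ∈ S, ∀ η, y (setY z η) = η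
  self : ∀ z ∈ S, setY z (y z) = z

/-- a kernel which is, up to `ε`, the sum of a part independent of the slow coordinates and the
averaged kernel `Sy` -/
def NearSum {Y : Type*} (K : Y → Y → ℝ) (S : Set Y) (y : Y → ℝ) (setY : Y → ℝ → Y)
    (Sy : ℝ → ℝ → ℝ) (ε : ℝ) : Prop :=
  ∃ R : Y → Y → ℝ, (∀ z ∈ S, ∀ z' ∈ S, ∀ η η', R (setY z η) (setY z' η') = R z z') ∧
    ∀ z ∈ S, ∀ z' ∈ S, |y z - y z'| ≤ 2 → |K z z' - R z z' - Sy (y z) (y z')| ≤ ε

/-- minimal paths have near-minimal slow sequences -/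
theorem nmin_of_near {setY : Y → ℝ → Y} (hY : SetY S y setY) {K : Y → Y → ℝ} {B Λ : ℝ}
    (hK : KD K C (Rm S y p) B Λ) {Sy : ℝ → ℝ → ℝ} {ε : ℝ} (h3 : NearSum K S y setY Sy ε) :
    NMin K C (Rm S y p) y Sy p ε := by
  obtain ⟨R, hR, h3⟩ := h3
  intro T x hT hx hmin
  refine ⟨fun k hk => (hx k hk).2, ?_⟩
  intro i j hij hjT η hηi hηj hη
  set x' : ℕ → Y := fun k => if i ≤ k ∧ k ≤ j then setY (x k) (η k) else x k with hx'
  have hin : ∀ k, i ≤ k → k ≤ j → x' k = setY (x k) (η k) := fun k h1 h2 => by simp [hx', h1, h2]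
  have hout : ∀ k, k ≤ T → ¬ (i < k ∧ k < j) → x' k = x k := by
    intro k hkT hk
    by_cases h : i ≤ k ∧ k ≤ j
    · have h' : k = i ∨ k = j := by omega
      rw [hin k h.1 h.2]
      rcases h' with rfl | rfl
      · rw [hηi]; exact hY.self _ (hx _ hkT).1
      · rw [hηj]; exact hY.self _ (hx _ hkT).1
    · simp only [hx', h, if_false]
  have hx'r : ∀ k ≤ T, x' k ∈ Rm S y p := by
    intro k hk
    by_cases h : i ≤ k ∧ k ≤ j
    · rw [hin k h.1 h.2]
      refine ⟨hY.mem _ (hx k hk).1 _, ?_⟩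
      rw [hY.eq _ (hx k hk).1]
      exact hη k h.1 h.2
    · rw [hout k hk (by omega)]; exact hx k hk
  have h0 : x' 0 = x 0 := hout 0 (by omega) (by omega)
  have hT' : x' T = x T := hout T le_rfl (by omega)
  have hle := kp_le_cost hK hT hx'r
  rw [h0, hT'] at hle
  have hcost : cost K x T ≤ cost K x' T := hmin.trans hle
  unfold cost at hcost
  -- only the block matters
  have hsub : Finset.Ico i j ⊆ Finset.range T := by
    intro k hk
    rw [Finset.mem_Ico] at hk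
    rw [Finset.mem_range]; omega
  have hdiff : ∑ k ∈ Finset.range T, (K (x' k) (x' (k + 1)) - K (x k) (x (k + 1))) =
      ∑ k ∈ Finset.Ico i j, (K (x' k) (x' (k + 1)) - K (x k) (x (k + 1))) := by
    symm
    apply Finset.sum_subset hsub
    intro k hk1 hk
    rw [Finset.mem_range] at hk1
    rw [Finset.mem_Ico] at hk
    rw [hout k (by omega) (by omega), hout (k + 1) (by omega) (by omega), sub_self]
  have h1 : 0 ≤ ∑ k ∈ Finset.Ico i j, (K (x' k) (x' (k + 1)) - K (x k) (x (k + 1))) := by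
    rw [← hdiff, Finset.sum_sub_distrib]; linarith
  have hroomd : ∀ a b : ℝ, |a - p| ≤ 7 / 8 → |b - p| ≤ 7 / 8 → |a - b| ≤ 2 := by
    intro a b ha hb
    rw [abs_le] at ha hb ⊢
    constructor <;> linarith [ha.1, ha.2, hb.1, hb.2]
  have hterm : ∀ k ∈ Finset.Ico i j, (K (x' k) (x' (k + 1)) - K (x k) (x (k + 1))) ≤
        Sy (η k) (η (k + 1)) - Sy (y (x k)) (y (x (k + 1))) + 2 * ε := by
    intro k hk
    rw [Finset.mem_Ico] at hk
    have hk1 := hx k (by omega)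
    have hk2 := hx (k + 1) (by omega)
    rw [hin k hk.1 (by omega), hin (k + 1) (by omega) (by omega)]
    have hA := h3 (setY (x k) (η k)) (hY.mem _ hk1.1 _) (setY (x (k + 1)) (η (k + 1)))
      (hY.mem _ hk2.1 _) (by
        rw [hY.eq _ hk1.1, hY.eq _ hk2.1]
        exact hroomd _ _ (hη k (by omega) (by omega)) (hη (k + 1) (by omega) (by omega)))
    have hB := h3 (x k) hk1.1 (x (k + 1)) hk2.1 (hroomd _ _ hk1.2 hk2.2)
    rw [hR _ hk1.1 _ hk2.1, hY.eq _ hk1.1, hY.eq _ hk2.1] at hA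
    have hA' := (abs_le.1 hA).2
    have hB' := (abs_le.1 hB).1
    linarith
  have h2 := Finset.sum_le_sum hterm
  rw [Finset.sum_add_distrib, Finset.sum_const, Nat.card_Ico] at h2
  rw [Finset.sum_sub_distrib] at h1
  rw [Finset.sum_sub_distrib, Finset.sum_sub_distrib] at h2
  have hcast : ((j - i : ℕ) : ℝ) = (j : ℝ) - i := by
    rw [Nat.cast_sub hij.le]
  rw [nsmul_eq_mul, hcast] at h2
  linarith

/-- minimal paths of transitions stay away from the boundary of the room -/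
theorem trans_room {K : Y → Y → ℝ} {Sy : ℝ → ℝ → ℝ} {β Φ e0 ε : ℝ}
    (hS : SData Sy p β Φ e0 ε) (hN : NMin K C (Rm S y p) y Sy p ε)
    {T : ℕ} (hT : 2 * Lat.R1 β + 2 ≤ T) {x : ℕ → Y} (hx : ∀ k ≤ T, x k ∈ Rm S y p)
    (hmin : cost K x T = kp K C T (x 0) (x T))
    (h0 : -(3/4) ≤ y (x 0) - p ∧ y (x 0) - p ≤ -(1/4)) (h1 : 1/4 ≤ y (x T) - p ∧ y (x T) - p ≤ 3/4)
    {k : ℕ} (hk : k ≤ T) : |y (x k) - p| ≤ 3 / 4 := by
  have hnm := hN T x (by omega) hx hmin.le
  have := surg_room hS hnm (by linarith [h0.2]) (by linarith [h1.1]) hT hk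
  rw [abs_le]
  constructor
  · linarith [this.1, h0.1]
  · linarith [this.2, h1.2]

/-- `C^0`-openness of `NearSum` -/
lemma NearSum.mono {setY : Y → ℝ → Y} {K K' : Y → Y → ℝ} {Sy : ℝ → ℝ → ℝ} {ε δ : ℝ}
    (h : NearSum K S y setY Sy ε) (hd : ∀ z ∈ S, ∀ z' ∈ S, |K z z' - K' z z'| ≤ δ) :
    NearSum K' S y setY Sy (ε + δ) := by
  obtain ⟨R, hR, h3⟩ := h
  refine ⟨R, hR, fun z hz z' hz' hy => ?_⟩
  have h1 := h3 z hz z' hz' hy
  have h2 := hd z hz z' hz'
  rw [abs_le] at h1 h2 ⊢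
  constructor <;> linarith [h1.1, h1.2, h2.1, h2.2]

end EscN
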