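import Mathlib

/-!
Clusters of touched cells, metric form.
-/

noncomputable section

namespace EscN

open Set Filter Topology Metric

/-- cluster of touched cells -/
theorem cluster {X I : Type*} [PseudoMetricSpace X] [ProperSpace X] {S Z : Set X}
    (hS : IsClosed S) {r ρ : ℝ} (hr : 0 < r) (κ : X → I)
    (hfin : ∀ (x : X) (R : ℝ), (Z ∩ closedBall x R).Finite)
    {y : X → ℝ} {p : ℝ}
    (hcov : ∀ x ∈ S, 1 / 4 ≤ y x - p → y x - p ≤ 3 / 4 → ∃ ζ ∈ Z, dist x ζ ≤ r)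
    (hκ : ∀ a ∈ Z, ∀ b ∈ Z, a ≠ b → dist a b < ρ → κ a ≠ κ b)
    {N0 : ℕ} (hN1 : 4 * r * (N0 + 3) ≤ ρ) (hN2 : 4 * r * (N0 + 3) ≤ 1 / 8)
    (hy : ∀ a b, |y a - y b| ≤ dist a b) {ℓ : ℝ} (W : X → ℝ) {z0 : X} (hz0S : z0 ∈ S)
    (h0 : 3 / 8 ≤ y z0 - p) (h0' : y z0 - p ≤ 5 / 8) (hW0 : W z0 ≤ ℓ)
    (hcard : ∀ J : Finset I, (∀ k ∈ J, ∃ ζ ∈ Z, κ ζ = k ∧ ∃ z ∈ S, dist z ζ ≤ r ∧
      1 / 4 ≤ y z - p ∧ y z - p ≤ 3 / 4 ∧ W z ≤ ℓ) → J.card ≤ N0) :
    ∃ D : Set X, IsCompact D ∧ D ⊆ S ∧ z0 ∈ D ∧ (∀ z ∈ D, 1 / 4 ≤ y z - p ∧ y z - p ≤ 3 / 4) ∧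
      (∀ z ∈ D, dist z z0 ≤ 2 * r * (N0 + 2)) ∧ ∀ z ∈ D, D ∉ 𝓝[S] z → ℓ < W z := by
  classical
  obtain ⟨ζ0, hζ0Z, hζ0⟩ := hcov z0 hz0S (by linarith) (by linarith)
  have hN0 : (0 : ℝ) ≤ N0 := Nat.cast_nonneg _
  have hrN : 0 ≤ r * N0 := by positivity
  -- touched cells and the box
  set Tc : X → Prop := fun ζ => ∃ z ∈ S, dist z ζ ≤ r ∧ W z ≤ ℓ with hTc
  set Bx : X → Prop := fun ζ => dist ζ ζ0 ≤ 2 * r * (N0 + 1) with hBx
  set R : X → X → Prop := fun ζ ζ' => ζ' ∈ Z ∧ dist ζ ζ' ≤ 2 * r ∧ Tc ζ' ∧ Bx ζ' with hR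
  set CL : Set X := {ζ | Relation.ReflTransGen R ζ0 ζ} with hCL
  have hT0 : Tc ζ0 := ⟨z0, hz0S, hζ0, hW0⟩
  have hB0 : Bx ζ0 := by
    show dist ζ0 ζ0 ≤ 2 * r * (N0 + 1)
    rw [dist_self]
    positivity
  have hmem : ∀ ζ ∈ CL, ζ ∈ Z ∧ Tc ζ ∧ Bx ζ := by
    intro ζ hζ
    induction hζ with
    | refl => exact ⟨hζ0Z, hT0, hB0⟩
    | tail _ h _ => exact ⟨h.1, h.2.2.1, h.2.2.2⟩
  -- points of the cells of the box
  have hclose : ∀ ζ, Bx ζ → ∀ z, dist z ζ ≤ r → dist z z0 ≤ 2 * r * (N0 + 2) := by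
    intro ζ hζ z hz
    have h1 := dist_triangle z ζ z0
    have h2 := dist_triangle ζ ζ0 z0
    have h3 : dist ζ0 z0 ≤ r := by rw [dist_comm]; exact hζ0
    have h4 : dist ζ ζ0 ≤ 2 * r * (N0 + 1) := hζ
    linarith
  have hsmall : 2 * r * ((N0 : ℝ) + 2) ≤ 1 / 16 := by nlinarith
  have hstrip : ∀ z, dist z z0 ≤ 2 * r * (N0 + 2) → 1 / 4 ≤ y z - p ∧ y z - p ≤ 3 / 4 := by
    intro z hz
    have h1 := abs_le.1 ((hy z z0).trans (hz.trans hsmall))
    constructor <;> linarith [h1.1, h1.2]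
  -- intermediate distances
  have hival : ∀ ζ ∈ CL, ∀ i : ℕ, 2 * r * i ≤ dist ζ ζ0 →
      ∃ ζ' ∈ CL, 2 * r * i ≤ dist ζ' ζ0 ∧ dist ζ' ζ0 < 2 * r * (i + 1) := by
    intro ζ hζ
    induction hζ with
    | refl =>
      intro i hi
      refine ⟨ζ0, Relation.ReflTransGen.refl, hi, ?_⟩
      rw [dist_self]
      positivity
    | @tail ζ1 ζ2 h1 h2 ih =>
      intro i hi
      by_cases hi1 : 2 * r * i ≤ dist ζ1 ζ0
      · exact ih i hi1
      · push Not at hi1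
        refine ⟨ζ2, h1.tail h2, hi, ?_⟩
        have h3 := dist_triangle ζ2 ζ1 ζ0
        have h4 : dist ζ2 ζ1 ≤ 2 * r := by rw [dist_comm]; exact h2.2.1
        linarith
  -- extent of the cluster
  have hext : ∀ ζ ∈ CL, dist ζ ζ0 < 2 * r * N0 := by
    intro ζ hζ
    by_contra hge
    push Not at hge
    have hsel : ∀ i : ℕ, ∃ ζ' : X, i ≤ N0 → ζ' ∈ CL ∧ 2 * r * i ≤ dist ζ' ζ0 ∧
        dist ζ' ζ0 < 2 * r * (i + 1) := by
      intro i
      by_cases hi : i ≤ N0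
      · have hi' : (i : ℝ) ≤ N0 := by exact_mod_cast hi
        obtain ⟨ζ', h1, h2, h3⟩ := hival ζ hζ i (by nlinarith)
        exact ⟨ζ', fun _ => ⟨h1, h2, h3⟩⟩
      · exact ⟨ζ0, fun h => absurd h hi⟩
    choose φ hφ using hsel
    have hlt : ∀ i j : ℕ, i < j → j ≤ N0 → φ i ≠ φ j := by
      intro i j hij hj he
      have h1 := (hφ i (by omega)).2.2
      have h2 := (hφ j hj).2.1
      rw [he] at h1
      have h3 : ((i : ℝ) + 1) ≤ j := by exact_mod_cast hij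
      nlinarith
    have hinj : Set.InjOn (fun i => κ (φ i)) (Finset.range (N0 + 1) : Finset ℕ) := by
      intro i hi j hj hij
      rw [Finset.mem_coe, Finset.mem_range] at hi hj
      by_contra hne
      have hne' : φ i ≠ φ j := by
        rcases Nat.lt_or_gt_of_ne hne with h | h
        · exact hlt i j h (by omega)
        · exact fun he => hlt j i h (by omega) he.symm
      have h1 := (hφ i (by omega)).1
      have h2 := (hφ j (by omega)).1
      have h3 : dist (φ i) (φ j) < ρ := by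
        have h4 := dist_triangle_right (φ i) (φ j) ζ0
        have h5 : dist (φ i) ζ0 ≤ 2 * r * (N0 + 1) := (hmem _ h1).2.2
        have h6 : dist (φ j) ζ0 ≤ 2 * r * (N0 + 1) := (hmem _ h2).2.2
        nlinarith
      exact hκ _ (hmem _ h1).1 _ (hmem _ h2).1 hne' h3 hij
    have hcard' := hcard ((Finset.range (N0 + 1)).image fun i => κ (φ i)) (by
      intro k hk
      rw [Finset.mem_image] at hk
      obtain ⟨i, hi, rfl⟩ := hk
      rw [Finset.mem_range] at hi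
      have h1 := (hφ i (by omega)).1
      obtain ⟨hZ, ⟨z, hzS, hz, hzW⟩, hB⟩ := hmem _ h1
      have := hstrip z (hclose _ hB z hz)
      exact ⟨φ i, hZ, rfl, z, hzS, hz, this.1, this.2, hzW⟩)
    rw [Finset.card_image_of_injOn hinj, Finset.card_range] at hcard'
    omega
  -- closure under touched neighbours
  have hclos : ∀ ζ ∈ CL, ∀ ζ' ∈ Z, dist ζ ζ' ≤ 2 * r → Tc ζ' → ζ' ∈ CL := by
    intro ζ hζ ζ' hζ' hd hT
    refine Relation.ReflTransGen.tail hζ ⟨hζ', hd, hT, ?_⟩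
    show dist ζ' ζ0 ≤ 2 * r * (N0 + 1)
    have h1 := hext ζ hζ
    have h2 := dist_triangle ζ' ζ ζ0
    rw [dist_comm ζ' ζ] at h2
    linarith
  have hCLfin : CL.Finite := by
    refine (hfin ζ0 (2 * r * (N0 + 1))).subset fun ζ hζ => ⟨(hmem ζ hζ).1, ?_⟩
    rw [mem_closedBall]
    exact (hmem ζ hζ).2.2
  set D : Set X := ⋃ ζ ∈ CL, (closedBall ζ r ∩ S) with hD
  have hDm : ∀ z, z ∈ D ↔ ∃ ζ ∈ CL, dist z ζ ≤ r ∧ z ∈ S := by
    intro z
    rw [hD, mem_iUnion₂]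
    constructor
    · rintro ⟨ζ, h1, h2, h3⟩
      exact ⟨ζ, h1, mem_closedBall.1 h2, h3⟩
    · rintro ⟨ζ, h1, h2, h3⟩
      exact ⟨ζ, h1, mem_closedBall.2 h2, h3⟩
  have hDd : ∀ z ∈ D, dist z z0 ≤ 2 * r * (N0 + 2) := by
    intro z hz
    obtain ⟨ζ, h1, h2, _⟩ := (hDm z).1 hz
    exact hclose ζ (hmem ζ h1).2.2 z h2
  refine ⟨D, ?_, ?_, ?_, fun z hz => hstrip z (hDd z hz), hDd, ?_⟩
  · exact hCLfin.isCompact_biUnion fun ζ _ => (isCompact_closedBall ζ r).inter_right hS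
  · intro z hz
    obtain ⟨ζ, _, _, h3⟩ := (hDm z).1 hz
    exact h3
  · exact (hDm z0).2 ⟨ζ0, Relation.ReflTransGen.refl, hζ0, hz0S⟩
  · intro z hz hfr
    by_contra hle
    push Not at hle
    apply hfr
    obtain ⟨ζ, hζ, hzζ, hzS⟩ := (hDm z).1 hz
    have hF := hfin z (r + 1)
    have hev : ∀ᶠ x in 𝓝 z, ∀ ζ' ∈ Z ∩ closedBall z (r + 1), r < dist z ζ' → r < dist x ζ' := by
      rw [← hF.coe_toFinset]
      have : ∀ ζ' ∈ hF.toFinset, ∀ᶠ x in 𝓝 z, r < dist z ζ' → r < dist x ζ' := by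
        intro ζ' _
        by_cases h : r < dist z ζ'
        · have hc : ContinuousAt (fun x : X => dist x ζ') z :=
            (continuous_id.dist continuous_const).continuousAt
          filter_upwards [hc.eventually_const_lt h] with x hx _
          exact hx
        · exact Eventually.of_forall fun x h' => absurd h' h
      have h2 := (Filter.eventually_all_finset hF.toFinset).2 this
      exact h2
    have hball : ∀ᶠ x in 𝓝 z, dist x z < 1 / 16 := ball_mem_nhds z (by norm_num)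
    have hyz := abs_le.1 ((hy z z0).trans ((hDd z hz).trans hsmall))
    rw [mem_nhdsWithin_iff_eventually]
    filter_upwards [hev, hball] with x hx hxz' hxS
    have hyx := abs_le.1 ((hy x z).trans hxz'.le)
    have hxz : dist x z < 1 := hxz'.trans (by norm_num)
    obtain ⟨ζx, hζxZ, hζx⟩ := hcov x hxS (by linarith [hyz.1, hyx.1]) (by linarith [hyz.2, hyx.2])
    have h1 : dist z ζx ≤ r + 1 := by
      have := dist_triangle z x ζx
      rw [dist_comm z x] at this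
      linarith
    have h2 : dist z ζx ≤ r := by
      by_contra h3
      push Not at h3
      have := hx ζx ⟨hζxZ, by rw [mem_closedBall, dist_comm]; exact h1⟩ h3
      linarith
    refine (hDm x).2 ⟨ζx, hclos ζ hζ ζx hζxZ ?_ ⟨z, hzS, h2, hle⟩, hζx, hxS⟩
    have := dist_triangle_left ζ ζx z
    linarith

end EscN
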