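import Mathlib

/-!
Invariant nets and packing bounds (cells of the quotient).
-/

noncomputable section

namespace EscN

open Set Filter Topology Metric

/-- separated subsets of a compact set have bounded cardinality -/
lemma card_le_of_sep {X : Type*} [PseudoMetricSpace X] {K : Set X} (hK : IsCompact K) {r : ℝ}
    (hr : 0 < r) : ∃ N : ℕ, ∀ C : Finset X, (↑C : Set X) ⊆ K →
      (∀ a ∈ C, ∀ b ∈ C, a ≠ b → r ≤ dist a b) → C.card ≤ N := by
  classical
  obtain ⟨t, ht, htf, hcov⟩ := hK.finite_cover_balls (e := r / 2) (by linarith)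
  refine ⟨htf.toFinset.card, fun C hC hsep => ?_⟩
  have hsel : ∀ a : X, ∃ c : X, a ∈ C → c ∈ t ∧ dist a c < r / 2 := by
    intro a
    by_cases ha : a ∈ C
    · have := hcov (hC ha)
      rw [mem_iUnion₂] at this
      obtain ⟨c, hc, hac⟩ := this
      exact ⟨c, fun _ => ⟨hc, mem_ball.1 hac⟩⟩
    · exact ⟨a, fun h => absurd h ha⟩
  choose φ hφ using hsel
  refine Finset.card_le_card_of_injOn φ (fun a ha => ?_) ?_
  · rw [Finite.coe_toFinset]
    exact (hφ a ha).1
  · intro a ha b hb hab
    by_contra hne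
    have h1 := (hφ a ha).2
    have h2 := (hφ b hb).2
    have h3 := hsep a ha b hb hne
    rw [← hab] at h2
    have h4 := dist_triangle_right a b (φ a)
    linarith

/-- separated subsets of a compact set are finite -/
lemma finite_of_sep {X : Type*} [PseudoMetricSpace X] {K : Set X} (hK : IsCompact K) {r : ℝ}
    (hr : 0 < r) {Z : Set X} (hZ : Z ⊆ K) (hsep : ∀ a ∈ Z, ∀ b ∈ Z, a ≠ b → r ≤ dist a b) :
    Z.Finite := by
  classical
  obtain ⟨N, hN⟩ := card_le_of_sep hK hr
  by_contra hinf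
  have hinf' : Z.Infinite := hinf
  obtain ⟨C, hC, hcard⟩ := hinf'.exists_subset_card_eq (N + 1)
  have := hN C (hC.trans hZ) fun a ha b hb hab => hsep a (hC ha) b (hC hb) hab
  omega

/-- invariant net: a finite set `C ⊆ K` whose orbit is `r`-separated and `r`-dense in `Γ K` -/
theorem exists_net {X : Type*} [PseudoMetricSpace X] {Γ : Type*} [Group Γ] [MulAction Γ X]
    [IsIsometricSMul Γ X] {K : Set X} (hK : IsCompact K) {r : ℝ} (hr : 0 < r)
    (hdisp : ∀ (γ : Γ), ∀ x ∈ K, γ • x ≠ x → r ≤ dist x (γ • x)) :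
    ∃ C : Finset X, (↑C : Set X) ⊆ K ∧
      (∀ a ∈ C, ∀ b ∈ C, ∀ γ γ' : Γ, γ • a ≠ γ' • b → r ≤ dist (γ • a) (γ' • b)) ∧
      ∀ (γ : Γ), ∀ k ∈ K, ∃ c ∈ C, ∃ γ' : Γ, dist (γ • k) (γ' • c) < r := by
  classical
  set P : Finset X → Prop := fun C => (↑C : Set X) ⊆ K ∧
    ∀ a ∈ C, ∀ b ∈ C, ∀ γ : Γ, a ≠ γ • b → r ≤ dist a (γ • b) with hP
  obtain ⟨N, hN⟩ := card_le_of_sep hK hr
  have hPN : ∀ C, P C → C.card ≤ N := fun C hC => hN C hC.1 fun a ha b hb hab => by
    have := hC.2 a ha b hb 1 (by rwa [one_smul])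
    rwa [one_smul] at this
  set A : Set ℕ := {n | ∃ C, P C ∧ C.card = n} with hA
  have hA0 : A.Nonempty := ⟨0, ∅, ⟨by simp, by simp⟩, by simp⟩
  have hAb : BddAbove A := ⟨N, by
    rintro n ⟨C, hC, rfl⟩
    exact hPN C hC⟩
  obtain ⟨C, hC, hCcard⟩ := Nat.sSup_mem hA0 hAb
  have hmax : ∀ C', P C' → C'.card ≤ C.card := by
    intro C' hC'
    rw [hCcard]
    exact le_csSup hAb ⟨C', hC', rfl⟩
  have htr : ∀ (γ : Γ) (x y : X), dist (γ • x) (γ • y) = dist x y := fun γ x y => dist_smul γ x y
  refine ⟨C, hC.1, ?_, ?_⟩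
  · intro a ha b hb γ γ' hne
    have h1 : a ≠ (γ⁻¹ * γ') • b := by
      intro h
      apply hne
      rw [h, smul_smul, mul_inv_cancel_left]
    have h2 := hC.2 a ha b hb (γ⁻¹ * γ') h1
    have h3 : dist (γ • a) (γ' • b) = dist a ((γ⁻¹ * γ') • b) := by
      rw [← htr γ⁻¹ (γ • a) (γ' • b), smul_smul, smul_smul, inv_mul_cancel, one_smul]
    rw [h3]
    exact h2
  · intro γ k hk
    suffices hs : ∃ c ∈ C, ∃ γ' : Γ, dist k (γ' • c) < r by
      obtain ⟨c, hc, γ', h⟩ := hs
      refine ⟨c, hc, γ * γ', ?_⟩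
      rw [mul_smul, htr]
      exact h
    by_contra hno
    push Not at hno
    have hkC : k ∉ C := by
      intro hkC
      have := hno k hkC 1
      rw [one_smul, dist_self] at this
      linarith
    have hP' : P (insert k C) := by
      refine ⟨?_, ?_⟩
      · intro x hx
        rw [Finset.mem_coe, Finset.mem_insert] at hx
        rcases hx with hx | hx
        · rw [hx]; exact hk
        · exact hC.1 hx
      · intro a ha b hb g hg
        rw [Finset.mem_insert] at ha hb
        rcases ha with ha | ha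
        · rcases hb with hb | hb
          · subst ha; subst hb
            exact hdisp g _ hk (Ne.symm hg)
          · subst ha
            exact hno b hb g
        · rcases hb with hb | hb
          · subst hb
            have h1 := hno a ha g⁻¹
            have h2 : dist a (g • b) = dist b (g⁻¹ • a) := by
              rw [← htr g⁻¹ a (g • b), smul_smul, inv_mul_cancel, one_smul, dist_comm]
            rw [h2]
            exact h1
          · exact hC.2 a ha b hb g hg
    have := hmax _ hP'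
    rw [Finset.card_insert_of_notMem hkC] at this
    omega

/-- packing bound, uniform in the scale -/
theorem packing (H : Type*) [NormedAddCommGroup H] [NormedSpace ℝ H] [FiniteDimensional ℝ H] (C : ℝ) :
    ∃ M : ℕ, ∀ r : ℝ, 0 < r → ∀ (F : Finset H) (z : H),
      (∀ x ∈ F, ∀ y ∈ F, x ≠ y → r ≤ dist x y) → (∀ x ∈ F, dist x z ≤ C * r) → F.card ≤ M := by
  classical
  have : ProperSpace H := FiniteDimensional.proper ℝ H
  obtain ⟨M, hM⟩ := card_le_of_sep (isCompact_closedBall (0 : H) C) one_pos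
  refine ⟨M, fun r hr F z hsep hball => ?_⟩
  have hinj : Set.InjOn (fun x : H => r⁻¹ • (x - z)) (↑F : Set H) := by
    intro x _ y _ hxy
    have hxy' : r⁻¹ • (x - z) = r⁻¹ • (y - z) := hxy
    have h2 : x - z = y - z := smul_right_injective H (inv_ne_zero hr.ne') hxy'
    exact sub_left_injective h2
  have h1 := hM (F.image fun x : H => r⁻¹ • (x - z)) (by
    intro w hw
    rw [Finset.coe_image] at hw
    obtain ⟨x, hx, rfl⟩ := hw
    rw [mem_closedBall, dist_zero_right, norm_smul, norm_inv, Real.norm_of_nonneg hr.le,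
      ← dist_eq_norm, inv_mul_le_iff₀ hr, mul_comm]
    exact hball x hx) (by
    intro a ha b hb hab
    rw [Finset.mem_image] at ha hb
    obtain ⟨x, hx, rfl⟩ := ha
    obtain ⟨y, hy, rfl⟩ := hb
    have hne : x ≠ y := fun h => hab (by rw [h])
    have h2 := hsep x hx y hy hne
    rw [dist_eq_norm, ← smul_sub, sub_sub_sub_cancel_right, norm_smul, norm_inv,
      Real.norm_of_nonneg hr.le, ← dist_eq_norm, le_inv_mul_iff₀ hr, mul_one]
    exact h2)
  rwa [Finset.card_image_of_injOn hinj] at h1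

end EscN
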