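import Pool.Agent.helper1.Esc.ModD
import Pool.Agent.helper1.Esc.ModR

/-!
Points of the middle strip, abstract form (metric state space, deck shift `sh`).
-/

noncomputable section

namespace EscN

open Set Filter Topology
open Esc

section bars

variable {Y : Type*} [PseudoMetricSpace Y] {K : Y → Y → ℝ} {C A : Set Y} {B Λ : ℝ}

lemma bar_red_right (h : KD K C A B Λ) {z' c : Y} (hc : ∀ x ∈ A, K x z' = K x c) {z : Y} (hz : z ∈ A) :
    bar K C z z' = bar K C z c := by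
  unfold bar
  congr 1
  funext S
  congr 1
  funext j
  rw [h.kp_red_right hc (S + j) z hz]

lemma bar_red_left (h : KD K C A B Λ) {z c z' : Y} (hc : ∀ x ∈ A, K z x = K c x) (hz' : z' ∈ A) :
    bar K C z z' = bar K C c z' := by
  unfold bar
  congr 1
  funext S
  congr 1
  funext j
  rw [h.kp_red_left hc hz' (S + j)]

end bars

/-- the geometry of the state space: `S` the (deck invariant) state space, `C` the compact
fundamental domain of the room, `y` the slow coordinate, `sh`, `sh'` the deck shift (height `-1`) and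
its inverse, `Rl` equivalence modulo the fast deck transformations -/
structure Geo {Y : Type*} [PseudoMetricSpace Y] (S C : Set Y) (y : Y → ℝ) (sh sh' : Y → Y)
    (Rl : Y → Y → Prop) (p : ℝ) : Prop where
  ylip : ∀ a b, |y a - y b| ≤ dist a b
  shS : ∀ z ∈ S, sh z ∈ S
  shS' : ∀ z ∈ S, sh' z ∈ S
  inv : ∀ z ∈ S, sh (sh' z) = z
  inv' : ∀ z ∈ S, sh' (sh z) = z
  ysh : ∀ z ∈ S, y (sh z) = y z - 1
  dsh : ∀ z ∈ S, ∀ w ∈ S, dist (sh z) (sh w) = dist z w
  CS : ∀ z ∈ C, z ∈ S ∧ |y z - p| ≤ 7 / 8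
  comp : IsCompact C
  red : ∀ z ∈ S, |y z - p| ≤ 7 / 8 → ∃ c ∈ C, y c = y z ∧ Rl z c
  rsh : ∀ z w, Rl z w → Rl (sh z) (sh w)
  ne : ∃ z ∈ S, 1 / 8 ≤ y z - p ∧ y z - p ≤ 7 / 8

/-- the room -/
def Rm {Y : Type*} (S : Set Y) (y : Y → ℝ) (p : ℝ) : Set Y := {z | z ∈ S ∧ |y z - p| ≤ 7 / 8}

/-- a kernel compatible with the deck transformations -/
structure KInv {Y : Type*} (K : Y → Y → ℝ) (S : Set Y) (sh : Y → Y) (Rl : Y → Y → Prop) : Prop where
  shift : ∀ z ∈ S, ∀ w ∈ S, K (sh z) (sh w) = K z w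
  left : ∀ z w x, z ∈ S → w ∈ S → x ∈ S → Rl z w → K z x = K w x
  right : ∀ z w x, z ∈ S → w ∈ S → x ∈ S → Rl z w → K x z = K x w

/-- optimal paths are near-minimal for the averaged kernel `Sy` -/
def NMin {Y : Type*} (K : Y → Y → ℝ) (C A : Set Y) (y : Y → ℝ) (Sy : ℝ → ℝ → ℝ) (p ε : ℝ) : Prop :=
  ∀ (T : ℕ) (x : ℕ → Y), 1 ≤ T → (∀ k ≤ T, x k ∈ A) → cost K x T ≤ kp K C T (x 0) (x T) →
    NM Sy p ε T fun k => y (x k)

namespace Geo

variable {Y : Type*} [PseudoMetricSpace Y] {S C : Set Y} {y : Y → ℝ} {sh sh' : Y → Y}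
  {Rl : Y → Y → Prop} {p : ℝ}

lemma ycont (h : Geo S C y sh sh' Rl p) : Continuous y := by
  refine Metric.continuous_iff.2 fun b ε hε => ⟨ε, hε, fun a ha => ?_⟩
  rw [Real.dist_eq]
  exact (h.ylip a b).trans_lt ha

lemma CA (h : Geo S C y sh sh' Rl p) : C ⊆ Rm S y p := fun z hz => h.CS z hz

lemma sh_room (h : Geo S C y sh sh' Rl p) {z : Y} (hz : z ∈ S) (h1 : 1 / 8 ≤ y z - p)
    (h2 : y z - p ≤ 7 / 8) : sh z ∈ Rm S y p := by
  refine ⟨h.shS z hz, ?_⟩
  rw [h.ysh z hz, abs_le]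
  constructor <;> linarith

lemma mem_room {z : Y} (hz : z ∈ S) (h1 : 1 / 8 ≤ y z - p)
    (h2 : y z - p ≤ 7 / 8) : z ∈ Rm S y p := by
  refine ⟨hz, ?_⟩
  rw [abs_le]
  constructor <;> linarith

lemma ysh' (h : Geo S C y sh sh' Rl p) {z : Y} (hz : z ∈ S) : y (sh' z) = y z + 1 := by
  have h1 := h.ysh (sh' z) (h.shS' z hz)
  rw [h.inv z hz] at h1
  linarith

lemma sh'_room (h : Geo S C y sh sh' Rl p) {z : Y} (hz : z ∈ S) (h1 : -(7 / 8) ≤ y z - p)
    (h2 : y z - p ≤ -(1 / 8)) : sh' z ∈ Rm S y p := by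
  refine ⟨h.shS' z hz, ?_⟩
  rw [h.ysh' hz, abs_le]
  constructor <;> linarith

/-- a minimizer of a continuous periodic function on the slab -/
lemma exists_min (h : Geo S C y sh sh' Rl p) {W : Y → ℝ}
    (hper : ∀ z c, z ∈ Rm S y p → c ∈ Rm S y p → 1 / 8 ≤ y z - p → y c = y z → Rl z c → W c = W z)
    (hc : ContinuousOn W ({z | 1 / 8 ≤ y z - p} ∩ Rm S y p)) :
    ∃ zb ∈ S, 1 / 8 ≤ y zb - p ∧ y zb - p ≤ 7 / 8 ∧
      ∀ z ∈ S, 1 / 8 ≤ y z - p → y z - p ≤ 7 / 8 → W zb ≤ W z := by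
  have hclosed : IsClosed {z : Y | 1 / 8 ≤ y z - p} :=
    isClosed_le continuous_const (h.ycont.sub continuous_const)
  have hcomp : IsCompact ({z : Y | 1 / 8 ≤ y z - p} ∩ C) := h.comp.inter_left hclosed
  have hred : ∀ z ∈ S, 1 / 8 ≤ y z - p → y z - p ≤ 7 / 8 →
      ∃ c ∈ ({z : Y | 1 / 8 ≤ y z - p} ∩ C), y c = y z ∧ Rl z c := by
    intro z hz h1 h2
    obtain ⟨c, hc, hy, hr⟩ := h.red z hz (mem_room hz h1 h2).2
    exact ⟨c, ⟨by show 1 / 8 ≤ y c - p; rw [hy]; exact h1, hc⟩, hy, hr⟩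
  have hne : ({z : Y | 1 / 8 ≤ y z - p} ∩ C).Nonempty := by
    obtain ⟨z, hz, h1, h2⟩ := h.ne
    obtain ⟨c, hc, _⟩ := hred z hz h1 h2
    exact ⟨c, hc⟩
  have hsub : {z : Y | 1 / 8 ≤ y z - p} ∩ C ⊆ {z | 1 / 8 ≤ y z - p} ∩ Rm S y p :=
    fun z hz => ⟨hz.1, h.CA hz.2⟩
  obtain ⟨zb, hzb, hmin⟩ := hcomp.exists_isMinOn hne (hc.mono hsub)
  have hzr := h.CS zb hzb.2
  refine ⟨zb, hzr.1, hzb.1, (abs_le.1 hzr.2).2, fun z hz h1 h2 => ?_⟩
  obtain ⟨c, hc, hy, hr⟩ := hred z hz h1 h2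
  have h3 : W zb ≤ W c := hmin hc
  rwa [hper z c (mem_room hz h1 h2) (h.CA hc.2) h1 hy hr] at h3

end Geo

lemma cost_le_add {Y : Type*} {K K' : Y → Y → ℝ} {δ : ℝ} {x x' : ℕ → Y} {T : ℕ}
    (h : ∀ i < T, K' (x' i) (x' (i + 1)) ≤ K (x i) (x (i + 1)) + δ) :
    cost K' x' T ≤ cost K x T + T * δ := by
  unfold cost
  have h3 : ∑ i ∈ Finset.range T, K' (x' i) (x' (i + 1)) ≤
      ∑ i ∈ Finset.range T, (K (x i) (x (i + 1)) + δ) := by
    refine Finset.sum_le_sum fun i hi => ?_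
    rw [Finset.mem_range] at hi
    exact h i hi
  rw [Finset.sum_add_distrib, Finset.sum_const, Finset.card_range, nsmul_eq_mul] at h3
  exact h3

theorem mid_point {Y : Type*} [PseudoMetricSpace Y] {S C : Set Y} {y : Y → ℝ} {sh sh' : Y → Y}
    {Rl : Y → Y → Prop} {p : ℝ} (hG : Geo S C y sh sh' Rl p) {K K' : Y → Y → ℝ} {B Λ : ℝ}
    (hK : KD K C (Rm S y p) B Λ) (hK' : KD K' C (Rm S y p) B Λ)
    (hI : KInv K S sh Rl) (hI' : KInv K' S sh Rl) {Sy : ℝ → ℝ → ℝ} {β Φ e0 ε δ : ℝ}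
    (hS : SData Sy p β Φ e0 ε) (hN : NMin K C (Rm S y p) y Sy p ε)
    (hN' : NMin K' C (Rm S y p) y Sy p ε)
    (hδ : ∀ z ∈ Rm S y p, ∀ z' ∈ Rm S y p, |K z z' - K' z z'| ≤ δ)
    {zs : Y} (hzs : zs ∈ Rm S y p) :
    ∃ z0 ∈ S, 3 / 8 ≤ y z0 - p ∧ y z0 - p ≤ 5 / 8 ∧ ∀ z ∈ S, 1 / 8 ≤ y z - p → y z - p ≤ 7 / 8 →
      bar K C zs z0 + bar K' C (sh z0) zs ≤
      bar K C zs z + bar K' C (sh z) zs + 2 * Lat.R1 β * δ := by
  classical
  have hδ0 : 0 ≤ δ := (abs_nonneg _).trans (hδ zs hzs zs hzs)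
  have hR0 : (0 : ℝ) ≤ Lat.R1 β := Nat.cast_nonneg _
  have hal : |al K C - al K' C| ≤ δ := al_sub_le hK hK' hδ
  have hal1 := (abs_le.1 hal).1
  have hal2 := (abs_le.1 hal).2
  have hshift' : ∀ z ∈ S, ∀ w ∈ S, K (sh' z) (sh' w) = K z w := by
    intro z hz w hw
    have := hI.shift (sh' z) (hG.shS' z hz) (sh' w) (hG.shS' w hw)
    rw [hG.inv z hz, hG.inv w hw] at this
    exact this.symm
  set W : Y → ℝ := fun z => bar K C zs z + bar K' C (sh z) zs with hW
  obtain ⟨zb, hzbS, hzb1, hzb2, hmin⟩ := hG.exists_min (W := W) (by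
    intro z c hz hc hz1 hy hr
    have hc1 : 1 / 8 ≤ y c - p := by rw [hy]; exact hz1
    have hcS := hG.shS c hc.1
    have hzS := hG.shS z hz.1
    rw [hW]
    simp only
    rw [bar_red_right hK (z' := z) (c := c) (fun x hx => hI.right z c x hz.1 hc.1 hx.1 hr) hzs,
      bar_red_left hK' (z := sh z) (c := sh c)
        (fun x hx => hI'.left (sh z) (sh c) x hzS hcS hx.1 (hG.rsh z c hr)) hzs]) (by
    refine ModD.contOn_of_lip (L := 2 * Λ) fun x hx w hw => ?_
    have hx2 : y x - p ≤ 7 / 8 := (abs_le.1 hx.2.2).2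
    have hw2 : y w - p ≤ 7 / 8 := (abs_le.1 hw.2.2).2
    have h1 := bar_lip hK hzs hx.2 hzs hw.2
    have h2 := bar_lip hK' (hG.sh_room hx.2.1 hx.1 hx2) hzs (hG.sh_room hw.2.1 hw.1 hw2) hzs
    rw [dist_self, zero_add] at h1
    rw [dist_self, add_zero, hG.dsh x hx.2.1 w hw.2.1] at h2
    rw [hW]
    simp only
    have h4 := abs_add_le (bar K C zs x - bar K C zs w) (bar K' C (sh x) zs - bar K' C (sh w) zs)
    rw [show bar K C zs x + bar K' C (sh x) zs - (bar K C zs w + bar K' C (sh w) zs)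
      = bar K C zs x - bar K C zs w + (bar K' C (sh x) zs - bar K' C (sh w) zs) by ring]
    linarith)
  have hzbr := Geo.mem_room (p := p) hzbS hzb1 hzb2
  have hzbg := hG.sh_room hzbS hzb1 hzb2
  -- it is enough to compare with the minimizer
  suffices hsuf : ∃ z0 ∈ S, 3 / 8 ≤ y z0 - p ∧ y z0 - p ≤ 5 / 8 ∧ W z0 ≤ W zb + 2 * Lat.R1 β * δ by
    obtain ⟨z0, h0, h1, h2, h3⟩ := hsuf
    refine ⟨z0, h0, h1, h2, fun z hz hz1 hz2 => ?_⟩
    have := hmin z hz hz1 hz2
    show W z0 ≤ W z + 2 * Lat.R1 β * δ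
    linarith
  set T : ℕ := 900 + 2 * Lat.R1 β + 2 with hT
  by_cases hA : 5 / 8 < y zb - p
  · -- path from the left ending at `zb`
    obtain ⟨x, hx, hxe⟩ := bar_right_eq hK (T := T) (by omega) hzs hzbr
    have hxr := hG.CA hx
    obtain ⟨u, hu, huc⟩ := exists_path hK (T := T) (by omega) hxr hzbr
    have hur := hu.mem hG.CA hxr hzbr
    have hnm := hN T u (by omega) hur (by rw [huc, hu.1, hu.2.1])
    obtain ⟨t, ht1, ht2, ht3⟩ := surg1 hS hnm (i := T - Lat.R1 β) (by omega)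
    have htn := abs_lt.1 (hS.ker.N_close ht3.1 (ht3.wide hS).2)
    have hex : ∃ a, y (u (T - a)) - p ≤ 5 / 8 := ⟨T - t, by
      rw [show T - (T - t) = t by omega]; linarith [htn.2]⟩
    set a := Nat.find hex with ha
    have ha1 : y (u (T - a)) - p ≤ 5 / 8 := Nat.find_spec hex
    have ha2 : ∀ b, b < a → 5 / 8 < y (u (T - b)) - p := fun b hb => not_le.1 (Nat.find_min hex hb)
    have ha3 : a ≤ T - t := Nat.find_min' hex (by
      rw [show T - (T - t) = t by omega]; linarith [htn.2])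
    have ha0 : 0 < a := by
      rcases Nat.eq_zero_or_pos a with h | h
      · rw [h, Nat.sub_zero, hu.2.1] at ha1
        exact absurd ha1 (not_le.2 hA)
      · exact h
    set k := T - a with hk
    have hkT : k + a = T := by omega
    have hk1 : 1 ≤ k := by omega
    have hstep := surg4 hS hnm (by omega) (k := k) (by omega)
    have hnext := ha2 (a - 1) (by omega)
    rw [show T - (a - 1) = k + 1 by omega] at hnext
    have hk3 : 3 / 8 ≤ y (u k) - p := by
      have := (abs_lt.1 hstep).2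
      linarith
    have hukr := hur k (by omega)
    refine ⟨u k, hukr.1, hk3, ha1, ?_⟩
    -- sites after `k`
    have hlate : ∀ i, i ≤ a → u (k + i) ∈ S ∧ 1 / 8 ≤ y (u (k + i)) - p ∧ y (u (k + i)) - p ≤ 7 / 8 := by
      intro i hi
      have hr := hur (k + i) (by omega)
      refine ⟨hr.1, ?_, (abs_le.1 hr.2).2⟩
      rcases Nat.eq_zero_or_pos i with h | h
      · rw [h, Nat.add_zero]; linarith
      · have := ha2 (a - i) (by omega)
        rw [show T - (a - i) = k + i by omega] at this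
        linarith
    have hsplit := cost_add K u k a
    rw [hkT] at hsplit
    have hb1 := bar_right_le hK hk1 hzs hxr hukr
    have hb2 := kp_le_cost hK hk1 (x := u) (fun i hi => hur i (by omega))
    rw [hu.1] at hb2
    have hb3 := bar_left_le hK' (T := a) (by omega) (z := sh (u k)) (x := sh zb)
      (z' := zs) (by
        have := hlate 0 (by omega)
        exact hG.sh_room this.1 this.2.1 this.2.2) hzbg hzs
    have hb4 := kp_le_cost hK' (T := a) (by omega) (x := fun i => sh (u (k + i)))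
      (fun i hi => hG.sh_room (hlate i hi).1 (hlate i hi).2.1 (hlate i hi).2.2)
    simp only [Nat.add_zero] at hb4
    rw [hkT, hu.2.1] at hb4
    have hb5 := cost_le_add (K := K) (K' := K') (δ := δ) (x := fun i => u (k + i))
      (x' := fun i => sh (u (k + i))) (T := a) (fun i hi => by
        rw [hI'.shift _ (hlate i (by omega)).1 _ (hlate (i + 1) (by omega)).1]
        have := (abs_le.1 (hδ (u (k + i)) (hur _ (by omega)) (u (k + (i + 1))) (hur _ (by omega)))).1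
        linarith)
    have hTk : (T : ℝ) = k + a := by rw [← hkT]; push_cast; ring
    have haR : (a : ℝ) ≤ Lat.R1 β := by exact_mod_cast (by omega : a ≤ Lat.R1 β)
    have ha0' : (0 : ℝ) ≤ a := Nat.cast_nonneg a
    have hWb : W zb = bar K C zs zb + bar K' C (sh zb) zs := rfl
    have hWk : W (u k) = bar K C zs (u k) + bar K' C (sh (u k)) zs := rfl
    rw [hWb, hWk, hxe, ← huc, hsplit, hTk]
    have e1 : al K' C * (a : ℝ) ≤ (al K C + δ) * a :=
      mul_le_mul_of_nonneg_right (by linarith) ha0'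
    have e2 : (a : ℝ) * δ ≤ Lat.R1 β * δ := mul_le_mul_of_nonneg_right haR hδ0
    nlinarith
  push Not at hA
  by_cases hC : 3 / 8 ≤ y zb - p
  · refine ⟨zb, hzbS, hC, hA, ?_⟩
    have : 0 ≤ 2 * (Lat.R1 β : ℝ) * δ := by positivity
    linarith
  · push Not at hC
    -- path to the right starting at `zb - g`
    obtain ⟨x, hx, hxe⟩ := bar_left_eq hK' (T := T) (by omega) hzbg hzs
    have hxr := hG.CA hx
    obtain ⟨v, hv, hvc⟩ := exists_path hK' (T := T) (by omega) hzbg hxr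
    have hvr := hv.mem hG.CA hzbg hxr
    have hnm := hN' T v (by omega) hvr (by rw [hvc, hv.1, hv.2.1])
    obtain ⟨t, ht1, ht2, ht3⟩ := surg1 hS hnm (i := 0) (by omega)
    have htn := abs_lt.1 (hS.ker.N_close ht3.1 (ht3.wide hS).2)
    have hex : ∃ a, -(5 / 8) ≤ y (v a) - p := ⟨t, by linarith [htn.1]⟩
    set k := Nat.find hex with hkdef
    have ha1 : -(5 / 8) ≤ y (v k) - p := Nat.find_spec hex
    have ha2 : ∀ b, b < k → y (v b) - p < -(5 / 8) := fun b hb => not_le.1 (Nat.find_min hex hb)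
    have ha3 : k ≤ t := Nat.find_min' hex (by linarith [htn.1])
    have hk1 : 1 ≤ k := by
      rcases Nat.eq_zero_or_pos k with h | h
      · rw [h, hv.1, hG.ysh zb hzbS] at ha1
        exfalso
        linarith
      · exact h
    have hstep := surg4 hS hnm (by omega) (k := k - 1) (by omega)
    rw [show k - 1 + 1 = k by omega] at hstep
    have hprev := ha2 (k - 1) (by omega)
    have hk3 : y (v k) - p < -(3 / 8) := by
      have := (abs_lt.1 hstep).2
      linarith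
    have hvkr := hvr k (by omega)
    have hearly : ∀ i, i ≤ k → v i ∈ S ∧ -(7 / 8) ≤ y (v i) - p ∧ y (v i) - p ≤ -(1 / 8) := by
      intro i hi
      have hr := hvr i (by omega)
      refine ⟨hr.1, (abs_le.1 hr.2).1, ?_⟩
      rcases Nat.eq_or_lt_of_le hi with h | h
      · rw [h]; linarith
      · linarith [ha2 i h]
    set a := T - k with hadef
    have hkT : k + a = T := by omega
    refine ⟨sh' (v k), hG.shS' _ hvkr.1, ?_, ?_, ?_⟩
    · rw [hG.ysh' hvkr.1]; linarith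
    · rw [hG.ysh' hvkr.1]; linarith
    have hsplit := cost_add K' v k a
    rw [hkT] at hsplit
    have hb1 := bar_left_le hK' (T := a) (by omega) hvkr hxr hzs
    have hb2 := kp_le_cost hK' (T := a) (by omega) (x := fun i => v (k + i))
      (fun i hi => hvr _ (by omega))
    simp only [Nat.add_zero] at hb2
    rw [hkT, hv.2.1] at hb2
    have hvk := hearly k le_rfl
    have hb3 := bar_right_le hK hk1 hzs hzbr (hG.sh'_room hvk.1 hvk.2.1 hvk.2.2)
    have hb4 := kp_le_cost hK hk1 (x := fun i => sh' (v i))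
      (fun i hi => hG.sh'_room (hearly i hi).1 (hearly i hi).2.1 (hearly i hi).2.2)
    rw [hv.1, hG.inv' zb hzbS] at hb4
    have hb5 := cost_le_add (K := K') (K' := K) (δ := δ) (x := v)
      (x' := fun i => sh' (v i)) (T := k) (fun i hi => by
        rw [hshift' _ (hearly i (by omega)).1 _ (hearly (i + 1) (by omega)).1]
        have := (abs_le.1 (hδ (v i) (hvr _ (by omega)) (v (i + 1)) (hvr _ (by omega)))).2
        linarith)
    have hTk : (T : ℝ) = k + a := by rw [← hkT]; push_cast; ring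
    have haR : (k : ℝ) ≤ Lat.R1 β := by exact_mod_cast (by omega : k ≤ Lat.R1 β)
    have hk0' : (0 : ℝ) ≤ k := Nat.cast_nonneg k
    have hWb : W zb = bar K C zs zb + bar K' C (sh zb) zs := rfl
    have hWk : W (sh' (v k)) = bar K C zs (sh' (v k)) + bar K' C (sh (sh' (v k))) zs := rfl
    rw [hWb, hWk, hxe, ← hvc, hsplit, hTk, hG.inv _ hvkr.1]
    have e1 : al K C * (k : ℝ) ≤ (al K' C + δ) * k :=
      mul_le_mul_of_nonneg_right (by linarith) hk0'
    have e2 : (k : ℝ) * δ ≤ Lat.R1 β * δ := mul_le_mul_of_nonneg_right haR hδ0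
    nlinarith

end EscN
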